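import Pool.Agent.StB.Red

/-!
# Adding slabs to a bound for symmetric bodies (MP_c1e66d_co)

If pairwise tangent families of positive homothets of the symmetric convex body `K` of `ℝ^e` have at
most `M` members, then those of `{y ∈ ℝ^d : |f l y| ≤ 1 (l < s), A y ∈ K}` have at most `2^s M`.
-/

set_option autoImplicit false

open scoped BigOperators

namespace Pool.Agent.Sym3

open Pool.Agent.StB

variable {d e s : ℕ}

/-- the body cut out by slabs and a linear image condition -/
def slabBody (f : Fin s → E d →ₗ[ℝ] ℝ) (A : E d →ₗ[ℝ] E e) (K : Set (E e)) : Set (E d) :=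
  {y | (∀ l, |f l y| ≤ 1) ∧ A y ∈ K}

theorem slabBody_convex (f : Fin s → E d →ₗ[ℝ] ℝ) (A : E d →ₗ[ℝ] E e) {K : Set (E e)}
    (hK : Convex ℝ K) : Convex ℝ (slabBody f A K) := by
  intro x hx y hy a b ha hb hab
  refine ⟨fun l => ?_, ?_⟩
  · rw [map_add, map_smul, map_smul, smul_eq_mul, smul_eq_mul]
    have h1 := hx.1 l
    have h2 := hy.1 l
    rw [abs_le] at h1 h2 ⊢
    constructor <;> nlinarith
  · rw [map_add, map_smul, map_smul]
    exact hK hx.2 hy.2 ha hb hab

theorem slabBody_symm (f : Fin s → E d →ₗ[ℝ] ℝ) (A : E d →ₗ[ℝ] E e) {K : Set (E e)}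
    (hs : ∀ y ∈ K, -y ∈ K) : ∀ y ∈ slabBody f A K, -y ∈ slabBody f A K := by
  intro y hy
  refine ⟨fun l => ?_, ?_⟩
  · rw [map_neg, abs_neg]; exact hy.1 l
  · rw [map_neg]; exact hs _ hy.2

theorem slabBody_interior (f : Fin s → E d →ₗ[ℝ] ℝ) (A : E d →ₗ[ℝ] E e) {K : Set (E e)} {y : E d}
    (h1 : ∀ l, |f l y| < 1) (h2 : A y ∈ interior K) : y ∈ interior (slabBody f A K) := by
  rw [mem_interior]
  refine ⟨(⋂ l, {x | |f l x| < 1}) ∩ A ⁻¹' (interior K), ?_, ?_, ?_⟩
  · intro x hx
    exact ⟨fun l => (Set.mem_iInter.1 hx.1 l).le, interior_subset hx.2⟩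
  · refine IsOpen.inter (isOpen_iInter_of_finite fun l => ?_) ?_
    · exact isOpen_lt ((LinearMap.continuous_of_finiteDimensional (f l)).abs) continuous_const
    · exact isOpen_interior.preimage (LinearMap.continuous_of_finiteDimensional A)
  · exact ⟨Set.mem_iInter.2 fun l => h1 l, h2⟩

/-- two homothets of a symmetric convex set that are close in the difference direction -/
theorem pair_tangent {K : Set (E e)} (hK : Convex ℝ K) (hs : ∀ y ∈ K, -y ∈ K) {x y : E e}
    {a b : ℝ} (ha : 0 < a) (hb : 0 < b) (h1 : (a + b)⁻¹ • (x - y) ∈ K)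
    (h2 : (a + b)⁻¹ • (x - y) ∉ interior K) :
    ((fun z => x + a • z) '' K ∩ (fun z => y + b • z) '' K).Nonempty ∧
    interior ((fun z => x + a • z) '' K) ∩ interior ((fun z => y + b • z) '' K) = ∅ := by
  have hab : 0 < a + b := add_pos ha hb
  set w := (a + b)⁻¹ • (x - y) with hw
  have hxy : x - y = (a + b) • w := by
    rw [hw, smul_smul, mul_inv_cancel₀ hab.ne', one_smul]
  constructor
  · refine ⟨x + a • (-w), ⟨-w, hs _ h1, rfl⟩, ⟨w, h1, ?_⟩⟩
    have : x = y + (a + b) • w := by rw [← hxy]; abel
    show y + b • w = x + a • -w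
    rw [this, add_smul, smul_neg]
    abel
  · rw [Set.eq_empty_iff_forall_notMem]
    rintro z ⟨hz1, hz2⟩
    have key : ∀ (p : E e) (r : ℝ), 0 < r → ∀ z ∈ interior ((fun y => p + r • y) '' K),
        ∃ u ∈ interior K, p + r • u = z := by
      intro p r hr z hz
      have hcont : Continuous (fun y : E e => p + r • y) := by fun_prop
      have hinj : Function.Injective (fun y : E e => p + r • y) := by
        intro u v huv
        have h3 : r • u = r • v := add_left_cancel huv
        exact smul_right_injective _ hr.ne' h3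
      have hsub : (fun y : E e => p + r • y) ⁻¹' (interior ((fun y => p + r • y) '' K)) ⊆
          interior K := by
        refine (preimage_interior_subset_interior_preimage hcont).trans ?_
        rw [hinj.preimage_image]
      obtain ⟨u, hu, hu2⟩ := interior_subset hz
      have hu2' : p + r • u = z := hu2
      refine ⟨u, hsub ?_, hu2⟩
      rw [Set.mem_preimage, hu2']
      exact hz
    obtain ⟨u, hu, hu2⟩ := key x a ha z hz1
    obtain ⟨v, hv, hv2⟩ := key y b hb z hz2
    have hKK : ∀ u ∈ interior K, -u ∈ interior K := by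
      intro u hu
      have hKn : -K = K := by
        ext y
        constructor
        · intro hy
          have := hs _ hy
          simpa using this
        · intro hy
          exact hs y hy
      have h2 : -interior K = interior (-K) := by
        have := (Homeomorph.neg (E e)).image_interior K
        simpa using this
      rw [hKn] at h2
      rw [← h2]
      simpa using hu
    apply h2
    have h3 : w = (b / (a + b)) • v + (a / (a + b)) • (-u) := by
      have h4 : x - y = b • v - a • u := by
        rw [sub_eq_sub_iff_add_eq_add, hu2, ← hv2, add_comm]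
      rw [hw, h4, smul_sub, smul_smul, smul_smul, smul_neg, ← sub_eq_add_neg, div_eq_inv_mul,
        div_eq_inv_mul]
    rw [h3]
    refine hK.interior hv (hKK u hu) (by positivity) (by positivity) ?_
    field_simp
    ring

theorem slab_bound {M N : ℕ} {K : Set (E e)} (hK : Convex ℝ K) (hs : ∀ y ∈ K, -y ∈ K)
    (hM : ∀ (n : ℕ) (c : Fin n → ℝ) (x : Fin n → E e), Tangent K c x → n ≤ M)
    (f : Fin s → E d →ₗ[ℝ] ℝ) (A : E d →ₗ[ℝ] E e) (c : Fin N → ℝ) (x : Fin N → E d)
    (hT : Tangent (slabBody f A K) c x) : N ≤ 2 ^ s * M := by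
  classical
  have hc := hT.1
  have hmem : ∀ i j, i ≠ j → (c i + c j)⁻¹ • (x i - x j) ∈ slabBody f A K := fun i j hij =>
    red_mem (slabBody_convex f A hK) (slabBody_symm f A hs) hT hij
  have hnot : ∀ i j, i ≠ j → (c i + c j)⁻¹ • (x i - x j) ∉ interior (slabBody f A K) :=
    fun i j hij => red_not (slabBody_symm f A hs) hT hij
  have hle : ∀ l i j, |f l (x i) - f l (x j)| ≤ c i + c j := by
    intro l i j
    rcases eq_or_ne i j with rfl | hij
    · rw [sub_self, abs_zero]; linarith [hc i]
    · have h1 := (hmem i j hij).1 l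
      have hpos : 0 < c i + c j := add_pos (hc i) (hc j)
      rw [map_smul, map_sub, smul_eq_mul, abs_mul, abs_inv, abs_of_pos hpos,
        inv_mul_le_iff₀ hpos, mul_one] at h1
      exact h1
  choose col hcol using fun l => slab_col c (fun i => f l (x i)) hc (hle l)
  refine col_split (fun i l => col l i) (fun v => ?_)
  set T : Finset (Fin N) := Finset.univ.filter (fun i => (fun l => col l i) = v) with hTdef
  let g : Fin T.card → Fin N := T.orderEmbOfFin rfl
  have hg : Function.Injective g := (T.orderEmbOfFin rfl).injective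
  have hgm : ∀ k, g k ∈ T := fun k => Finset.orderEmbOfFin_mem T rfl k
  refine hM T.card (fun k => c (g k)) (fun k => A (x (g k))) ⟨fun k => hc _, ?_⟩
  intro k k' hkk
  have hij : g k ≠ g k' := fun h => hkk (hg h)
  have hpos : 0 < c (g k) + c (g k') := add_pos (hc _) (hc _)
  have hA : A ((c (g k) + c (g k'))⁻¹ • (x (g k) - x (g k'))) =
      (c (g k) + c (g k'))⁻¹ • (A (x (g k)) - A (x (g k'))) := by
    rw [map_smul, map_sub]
  refine pair_tangent hK hs (hc _) (hc _) ?_ ?_
  · rw [← hA]; exact (hmem _ _ hij).2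
  · intro h2
    rw [← hA] at h2
    refine hnot _ _ hij (slabBody_interior f A (fun l => ?_) h2)
    have e1 : (fun l => col l (g k)) = v := (Finset.mem_filter.1 (hgm k)).2
    have e2 : (fun l => col l (g k')) = v := (Finset.mem_filter.1 (hgm k')).2
    have e3 : col l (g k) = col l (g k') := by
      have := congrFun (e1.trans e2.symm) l
      exact this
    have h3 := hcol l _ _ e3
    rw [map_smul, map_sub, smul_eq_mul, abs_mul, abs_inv, abs_of_pos hpos,
      inv_mul_lt_iff₀ hpos, mul_one]
    exact h3

end Pool.Agent.Sym3
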